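import Pool.Agent.H646R3.Cop.Final

/-!
# The copolymer transition can have finite order

For every `α ∈ (0, 1/2)` there is an irreducible recurrent nearest-neighbour chain on `ℤ` with
`P(τ_1 = 2n) ≍ n^{-(1+α)}` for which the copolymer model (`φ = 1_{x ≤ 0}`) has, for every charge
law with mean zero and all exponential moments and for all small `β > 0`, quenched critical point
`h_c(β) = log E[e^{βω}]` and a quenched transition of order exactly `1/α`.
-/

set_option autoImplicit false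

namespace Pool.Agent.Results.MP_daa227_pr.FiniteOrder

open MeasureTheory ProbabilityTheory Filter Topology Pool.Agent.H646R3.Cop

theorem result (α : ℝ) (hα : 0 < α) (hα' : α < 1 / 2) :
    ∃ p : ℤ → ℝ,
      -- irreducible nearest-neighbour chain
      (∀ x, 0 < p x ∧ p x < 1) ∧
      -- recurrent
      HasSum (firstReturn p) 1 ∧
      -- tail exponent `α` of the return time
      (∃ c C : ℝ, 0 < c ∧ ∀ n : ℕ, 1 ≤ n →
        c * (n : ℝ) ^ (-(1 + α)) ≤ firstReturn p (2 * n) ∧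
        firstReturn p (2 * n) ≤ C * (n : ℝ) ^ (-(1 + α))) ∧
      -- any charge law with mean `0` and all exponential moments, all small `β`
      ∀ (ν : Measure ℝ) [IsProbabilityMeasure ν],
        (∀ t : ℝ, Integrable (fun x => Real.exp (t * x)) ν) → ∫ x, x ∂ν = 0 →
        ∃ β₀ : ℝ, 0 < β₀ ∧ ∀ β : ℝ, 0 < β → β < β₀ → ∀ hc : ℝ,
          hc = Real.log (∫ x, Real.exp (β * x) ∂ν) →
          -- the critical point is `hc`
          (∀ h : ℝ, hc ≤ h → Tendsto (quenched p copolymerPotential ν β h) atTop (𝓝 0)) ∧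
          (∀ h : ℝ, h < hc → ∃ c : ℝ, 0 < c ∧
            ∀ᶠ N in atTop, c ≤ quenched p copolymerPotential ν β h N) ∧
          -- order at least `1/α`
          (∃ C δ₀ : ℝ, 0 < C ∧ 0 < δ₀ ∧ ∀ δ : ℝ, 0 < δ → δ < δ₀ →
            ∀ᶠ N in atTop, quenched p copolymerPotential ν β (hc - δ) N ≤ C * δ ^ (1 / α)) ∧
          -- order at most `1/α`
          (∀ r : ℝ, 1 / α < r → ∃ δ₀ : ℝ, 0 < δ₀ ∧ ∀ δ : ℝ, 0 < δ → δ < δ₀ →
            ∀ᶠ N in atTop, δ ^ r ≤ quenched p copolymerPotential ν β (hc - δ) N) := by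
  have h1 : α < 1 := by linarith
  refine ⟨tr α, tr_isTrans hα h1, recurrent_tr hα h1, firstReturn_bounds hα h1, ?_⟩
  intro ν _ hexp hmean
  obtain ⟨U2, hU⟩ : ∃ U2 : ℝ, ∀ N, ∑ m ∈ Finset.range N, uu (tr α) m ^ 2 ≤ U2 :=
    ⟨_, fun N => (uu_sq_summable hα h1 hα').sum_le_tsum _ fun _ _ => sq_nonneg _⟩
  obtain ⟨β₀, hβ₀, hb⟩ := exists_beta0 (ν := ν) hexp (4 + 50 * U2)
  refine ⟨β₀, hβ₀, fun β hβ hβ' hc hhc => ?_⟩
  have hcgf : hc = cgf id ν β := hhc
  subst hcgf
  have hlow := fun (r : ℝ) (hr : 1 / α < r) =>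
    quenched_lower hα h1 hexp hmean hU β (hb β hβ hβ') hr
  refine ⟨fun h hh => quenched_zero hα h1 hexp β h hh, fun h hh => ?_,
    quenched_upper hα h1 hexp β, hlow⟩
  obtain ⟨δ₀, hδ₀, hd⟩ := hlow (1 / α + 1) (by linarith)
  set δ := min (δ₀ / 2) ((cgf id ν β - h) / 2) with hδdef
  have hgap : 0 < cgf id ν β - h := by linarith
  have hδ : 0 < δ := lt_min (by positivity) (by positivity)
  have hδ1 : δ < δ₀ := (min_le_left _ _).trans_lt (by linarith)
  have hδ2 : h ≤ cgf id ν β - δ := by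
    have := min_le_right (δ₀ / 2) ((cgf id ν β - h) / 2)
    rw [← hδdef] at this
    linarith
  refine ⟨δ ^ (1 / α + 1), by positivity, ?_⟩
  filter_upwards [hd δ hδ hδ1] with N hN
  exact hN.trans (quenched_anti hα h1 hexp β hδ2 N)

end Pool.Agent.Results.MP_daa227_pr.FiniteOrder
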